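import Pool.Agent.Lib.MP_2194ec_nt.GAL.Defs

set_option autoImplicit false
set_option linter.unusedSectionVars false

/-!
# Counting conjugates
-/

namespace Pool.DynLehmer.GAL.H98
open NumberField Pool.DynLehmer Pool.DynLehmer.GAL
open scoped Classical

/-- A map on a finite group whose fibres are the cosets of a subgroup. -/
theorem fib {Γ α : Type*} [Group Γ] [Fintype Γ] [DecidableEq α] (φ : Γ → α) (S : Subgroup Γ)
    (h : ∀ σ τ, φ σ = φ τ ↔ τ⁻¹ * σ ∈ S) :
    (∀ y, y ∈ Finset.univ.image φ →
      (Finset.univ.filter fun σ => φ σ = y).card = Nat.card S) ∧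
    (Finset.univ.image φ).card * Nat.card S = Fintype.card Γ := by
  have h1 : ∀ y, y ∈ Finset.univ.image φ →
      (Finset.univ.filter fun σ => φ σ = y).card = Nat.card S := by
    intro y hy
    obtain ⟨τ, _, rfl⟩ := Finset.mem_image.1 hy
    rw [Nat.card_eq_fintype_card, Fintype.card_subtype]
    refine Finset.card_bij (fun σ _ => τ⁻¹ * σ) ?_ ?_ ?_
    · intro σ hσ
      rw [Finset.mem_filter] at hσ ⊢
      exact ⟨Finset.mem_univ _, (h σ τ).1 hσ.2⟩
    · intro a _ b _ hab
      exact mul_left_cancel hab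
    · intro b hb
      rw [Finset.mem_filter] at hb
      refine ⟨τ * b, Finset.mem_filter.2 ⟨Finset.mem_univ _, (h _ _).2 ?_⟩, ?_⟩
      · rw [inv_mul_cancel_left]
        exact hb.2
      · rw [inv_mul_cancel_left]
  refine ⟨h1, ?_⟩
  rw [← Finset.card_univ, Finset.card_eq_sum_card_fiberwise (t := Finset.univ.image φ) (f := φ)
    (fun σ _ => Finset.mem_coe.2 (Finset.mem_image_of_mem φ (Finset.mem_univ σ))),
    Finset.sum_congr rfl h1, Finset.sum_const, smul_eq_mul]

section gal

variable {K N : Type} [Field K] [Field N] [Algebra K N] [FiniteDimensional K N]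

/-- The conjugates of `x`. -/
noncomputable def conj (K : Type) [Field K] {N : Type} [Field N] [Algebra K N]
    [FiniteDimensional K N] (x : N) : Finset N :=
  Finset.univ.image fun σ : N ≃ₐ[K] N => σ x

/-- The stabilizer of `x`. -/
def st (K : Type) [Field K] {N : Type} [Field N] [Algebra K N] (x : N) :
    Subgroup (N ≃ₐ[K] N) := MulAction.stabilizer (N ≃ₐ[K] N) x

theorem mem_st {x : N} {σ : N ≃ₐ[K] N} : σ ∈ st K x ↔ σ x = x := Iff.rfl

theorem eq_iff (x : N) (σ τ : N ≃ₐ[K] N) : σ x = τ x ↔ τ⁻¹ * σ ∈ st K x := by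
  rw [mem_st, AlgEquiv.mul_apply]
  constructor
  · intro h
    rw [h]
    exact τ.symm_apply_apply x
  · intro h
    have h1 := congrArg τ h
    rwa [show τ ((τ⁻¹ : N ≃ₐ[K] N) (σ x)) = σ x from τ.apply_symm_apply _] at h1

/-- Each value is taken `|Γ| / |conj x|` times. -/
theorem card_fibre (x y : N) :
    (Finset.univ.filter fun σ : N ≃ₐ[K] N => σ x = y).card * (conj K x).card ≤
      Fintype.card (N ≃ₐ[K] N) := by
  obtain ⟨h1, h2⟩ := fib (fun σ : N ≃ₐ[K] N => σ x) (st K x) (fun σ τ => eq_iff x σ τ)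
  by_cases hy : y ∈ conj K x
  · rw [h1 y hy, mul_comm]
    exact h2.le
  · have h3 : (Finset.univ.filter fun σ : N ≃ₐ[K] N => σ x = y) = ∅ := by
      refine Finset.filter_eq_empty_iff.2 fun σ _ hσ => hy ?_
      exact Finset.mem_image.2 ⟨σ, Finset.mem_univ _, hσ⟩
    rw [h3, Finset.card_empty, zero_mul]
    exact Nat.zero_le _

theorem card_conj_pos (x : N) : 0 < (conj K x).card :=
  Finset.card_pos.2 ⟨x, Finset.mem_image.2 ⟨1, Finset.mem_univ _, rfl⟩⟩

theorem card_conj_mul (x : N) :
    (conj K x).card * Nat.card (st K x) = Fintype.card (N ≃ₐ[K] N) :=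
  (fib (fun σ : N ≃ₐ[K] N => σ x) (st K x) (fun σ τ => eq_iff x σ τ)).2

/-- The stabilizer and the degree over `K(x)`. -/
theorem card_st [IsGalois K N] (x : N) :
    Nat.card (st K x) = Module.finrank (IntermediateField.adjoin K {x}) N := by
  rw [← IsGalois.card_fixingSubgroup_eq_finrank]
  refine Nat.card_congr (Equiv.subtypeEquivRight fun σ => ?_)
  rw [mem_st, IntermediateField.mem_fixingSubgroup_iff]
  constructor
  · intro h y hy
    have h1 : IntermediateField.adjoin K {x} ≤
        IntermediateField.fixedField (Subgroup.zpowers σ) := by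
      rw [IntermediateField.adjoin_simple_le_iff]
      rintro ⟨τ, n, rfl⟩
      show (σ ^ n) x = x
      have h2 : σ ∈ st K x := h
      exact (st K x).zpow_mem h2 n
    exact h1 hy ⟨σ, Subgroup.mem_zpowers σ⟩
  · intro h
    exact h x (IntermediateField.mem_adjoin_simple_self K x)

/-- The number of conjugates of the pair `(x, y)`, if `y` is a root of a polynomial over `K[x]`. -/
theorem idx_pt_le (x y : N) (G : Polynomial (Polynomial K)) (d : ℕ) (hd : G.natDegree ≤ d)
    (hG : ∀ b : N, G.map (Polynomial.aeval b : Polynomial K →ₐ[K] N).toRingHom ≠ 0)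
    (h0 : ev2 x y G = 0) :
    idx (⊤ : Subgroup (N ≃ₐ[K] N)) (pt x y) ≤ (conj K x).card * d := by
  have hst : ∀ σ : N ≃ₐ[K] N, σ ∈ stab (K := K) (pt x y) ↔ σ x = x ∧ σ y = y := by
    intro σ
    rw [mem_stab]
    constructor
    · rintro ⟨c, _, h⟩
      have h2 : σ 1 = c * 1 := congrFun h 2
      have h3 : σ x = c * x := congrFun h 0
      have h4 : σ y = c * y := congrFun h 1
      rw [map_one, mul_one] at h2
      rw [← h2, one_mul] at h3 h4
      exact ⟨h3, h4⟩
    · rintro ⟨h1, h2⟩
      refine ⟨1, one_ne_zero, ?_⟩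
      rw [one_smul]
      funext i
      fin_cases i
      · exact h1
      · exact h2
      · exact map_one σ
  obtain ⟨h1, h2⟩ := fib (fun σ : N ≃ₐ[K] N => (σ x, σ y)) (stab (K := K) (pt x y)) (by
    intro σ τ
    rw [hst, Prod.mk.injEq, eq_iff x, eq_iff y]
    exact Iff.rfl)
  have h3 : idx (⊤ : Subgroup (N ≃ₐ[K] N)) (pt x y) =
      (Finset.univ.image fun σ : N ≃ₐ[K] N => (σ x, σ y)).card := by
    have h4 := card_mul_idx (⊤ : Subgroup (N ≃ₐ[K] N)) (pt x y)
    rw [card_fin, card_fin, top_inf_eq, Nat.card_congr (Subgroup.topEquiv (G := N ≃ₐ[K] N)).toEquiv,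
      Nat.card_eq_fintype_card (α := N ≃ₐ[K] N), ← h2, mul_comm] at h4
    exact Nat.eq_of_mul_eq_mul_right Nat.card_pos h4
  rw [h3, mul_comm]
  refine Finset.card_le_mul_card_image_of_maps_to (f := Prod.fst) ?_ d ?_
  · rintro ⟨a, b⟩ hab
    obtain ⟨σ, _, hσ⟩ := Finset.mem_image.1 hab
    exact Finset.mem_image.2 ⟨σ, Finset.mem_univ _, congrArg Prod.fst hσ⟩
  · intro b _
    let P : Polynomial N := G.map (Polynomial.aeval b : Polynomial K →ₐ[K] N).toRingHom
    have h5 : ((Finset.univ.image fun σ : N ≃ₐ[K] N => (σ x, σ y)).filter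
        fun z => z.1 = b).card ≤ P.roots.toFinset.card := by
      refine Finset.card_le_card_of_injOn Prod.snd ?_ ?_
      · rintro ⟨a, c⟩ hac
        have hac' := Finset.mem_filter.1 (Finset.mem_coe.1 hac)
        obtain ⟨σ, _, hσ⟩ := Finset.mem_image.1 hac'.1
        have hb : a = b := hac'.2
        have hσ1 : σ x = a := congrArg Prod.fst hσ
        have hσ2 : σ y = c := congrArg Prod.snd hσ
        refine Finset.mem_coe.2 (Multiset.mem_toFinset.2 ?_)
        rw [Polynomial.mem_roots (hG b)]
        show P.eval c = 0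
        rw [Polynomial.eval_map, ← hσ2, ← hb, ← hσ1]
        have h6 := congrArg σ h0
        rw [map_zero] at h6
        rw [← h6, ev2]
        have h7 := Polynomial.hom_eval₂ G (Polynomial.aeval x : Polynomial K →ₐ[K] N).toRingHom
          (σ : N →+* N) y
        have h8 : (σ : N →+* N).comp (Polynomial.aeval x : Polynomial K →ₐ[K] N).toRingHom =
            (Polynomial.aeval (σ x) : Polynomial K →ₐ[K] N).toRingHom := by
          refine Polynomial.ringHom_ext (fun r => ?_) ?_
          · show σ (Polynomial.aeval x (Polynomial.C r)) = Polynomial.aeval (σ x) (Polynomial.C r)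
            rw [Polynomial.aeval_C, Polynomial.aeval_C, σ.commutes]
          · show σ (Polynomial.aeval x Polynomial.X) = Polynomial.aeval (σ x) Polynomial.X
            rw [Polynomial.aeval_X, Polynomial.aeval_X]
        rw [h8] at h7
        exact h7.symm
      · rintro ⟨a, c⟩ hac ⟨a', c'⟩ hac' hcc
        have e1 : a = b := (Finset.mem_filter.1 (Finset.mem_coe.1 hac)).2
        have e2 : a' = b := (Finset.mem_filter.1 (Finset.mem_coe.1 hac')).2
        have e3 : c = c' := hcc
        rw [e1, e2, e3]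
    refine h5.trans ((Multiset.toFinset_card_le _).trans ((Polynomial.card_roots' P).trans ?_))
    exact Polynomial.natDegree_map_le.trans hd

end gal

end Pool.DynLehmer.GAL.H98
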