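import Mathlib

set_option autoImplicit false

/-!
# Numbers for the end of the proof
-/

namespace Pool.DynLehmer.GAL.H98
open Real

theorem geom4 {s : ℝ} (hs : 4 / 3 ≤ s) (J : ℕ) :
    ∑ j ∈ Finset.range (J + 1), s ^ j ≤ 4 * s ^ J := by
  induction J with
  | zero =>
    rw [zero_add, Finset.sum_range_one, pow_zero]
    norm_num
  | succ J ih =>
    rw [Finset.sum_range_succ]
    have h0 : 0 < s ^ J := pow_pos (by linarith) J
    have h1 : s ^ (J + 1) = s ^ J * s := pow_succ s J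
    rw [h1]
    nlinarith

/-- The counting argument. -/
theorem end_num {Γ : Type*} [Fintype Γ] [Nonempty Γ] (n : Γ → ℕ) (q : ℕ) (hq : 2 ≤ q)
    (Dj : ℕ → ℝ) (hD1 : ∀ j, 1 ≤ Dj j) (m : ℝ) (hm : 1 ≤ m)
    (hD : ∀ j, (Fintype.card Γ : ℝ) ≤ m * ((q : ℝ) ^ j * Dj j)) (y : ℝ) (hy : 0 ≤ y)
    (hY : ∀ h, (q : ℝ) ^ n h * y ^ 2 ≤ Fintype.card Γ) (C : ℝ) (hC : 0 ≤ C)
    (hcard : ∀ j, ((Finset.univ.filter fun h => n h = j).card : ℝ) * Dj j ≤
      C * Fintype.card Γ * √(Dj j)) : y ≤ 4 * C * √m := by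
  classical
  set g : ℝ := (Fintype.card Γ : ℝ) with hg
  have hg0 : 0 < g := by
    rw [hg]
    exact_mod_cast Fintype.card_pos
  have hq0 : (0 : ℝ) < q := by exact_mod_cast (by omega : 0 < q)
  set s : ℝ := √q with hs
  have hs0 : 0 < s := sqrt_pos.2 hq0
  have hs2 : s ^ 2 = q := sq_sqrt hq0.le
  have hs43 : 4 / 3 ≤ s := by
    rw [hs]
    refine le_sqrt_of_sq_le ?_
    have : (2 : ℝ) ≤ q := by exact_mod_cast hq
    linarith
  have hsg : √g ^ 2 = g := sq_sqrt hg0.le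
  have hsg0 : 0 < √g := sqrt_pos.2 hg0
  -- each level
  have h1 : ∀ j, ((Finset.univ.filter fun h => n h = j).card : ℝ) ≤ C * √g * √m * s ^ j := by
    intro j
    have hd0 : 0 < Dj j := zero_lt_one.trans_le (hD1 j)
    have hsd : √(Dj j) ^ 2 = Dj j := sq_sqrt hd0.le
    have hsd0 : 0 < √(Dj j) := sqrt_pos.2 hd0
    set c : ℝ := ((Finset.univ.filter fun h => n h = j).card : ℝ) with hc
    have hc0 : 0 ≤ c := Nat.cast_nonneg _
    have e1 : c * √(Dj j) ≤ C * g := by
      have h2 := hcard j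
      have h3 : (c * √(Dj j)) * √(Dj j) ≤ (C * g) * √(Dj j) := by
        calc (c * √(Dj j)) * √(Dj j) = c * √(Dj j) ^ 2 := by ring
          _ = c * Dj j := by rw [hsd]
          _ ≤ (C * g) * √(Dj j) := h2
      exact le_of_mul_le_mul_right h3 hsd0
    have e2 : √g ≤ √m * s ^ j * √(Dj j) := by
      have h2 : √m * s ^ j * √(Dj j) = √(m * ((q : ℝ) ^ j * Dj j)) := by
        rw [sqrt_mul (by linarith), sqrt_mul (pow_nonneg hq0.le j), ← mul_assoc]
        congr 2
        rw [← hs2, ← pow_mul, mul_comm 2 j, pow_mul, sqrt_sq (pow_nonneg hs0.le j)]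
      rw [h2]
      exact sqrt_le_sqrt (hD j)
    have e3 : c * √g ≤ (C * √g * √m * s ^ j) * √g := by
      calc c * √g ≤ c * (√m * s ^ j * √(Dj j)) := mul_le_mul_of_nonneg_left e2 hc0
        _ = (c * √(Dj j)) * (√m * s ^ j) := by ring
        _ ≤ (C * g) * (√m * s ^ j) := mul_le_mul_of_nonneg_right e1
            (mul_nonneg (sqrt_nonneg m) (pow_nonneg hs0.le j))
        _ = (C * √g ^ 2) * (√m * s ^ j) := by rw [hsg]
        _ = (C * √g * √m * s ^ j) * √g := by ring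
    exact le_of_mul_le_mul_right e3 hsg0
  -- the largest level
  obtain ⟨h₀, _, hmax⟩ := Finset.exists_max_image (Finset.univ : Finset Γ) n Finset.univ_nonempty
  set J := n h₀ with hJ
  have h2 : (Fintype.card Γ) = ∑ j ∈ Finset.range (J + 1),
      (Finset.univ.filter fun h => n h = j).card := by
    rw [← Finset.card_univ]
    exact Finset.card_eq_sum_card_fiberwise fun h _ => Finset.mem_coe.2
      (Finset.mem_range.2 (Nat.lt_succ_iff.2 (hmax h (Finset.mem_univ h))))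
  have h3 : g ≤ C * √g * √m * (4 * s ^ J) := by
    calc g = ∑ j ∈ Finset.range (J + 1),
          ((Finset.univ.filter fun h => n h = j).card : ℝ) := by
          rw [hg, h2, Nat.cast_sum]
      _ ≤ ∑ j ∈ Finset.range (J + 1), C * √g * √m * s ^ j := Finset.sum_le_sum fun j _ => h1 j
      _ = C * √g * √m * ∑ j ∈ Finset.range (J + 1), s ^ j := by rw [Finset.mul_sum]
      _ ≤ C * √g * √m * (4 * s ^ J) := mul_le_mul_of_nonneg_left (geom4 hs43 J)
          (mul_nonneg (mul_nonneg hC (sqrt_nonneg g)) (sqrt_nonneg m))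
  have h4 : s ^ J * y ≤ √g := by
    refine le_sqrt_of_sq_le ?_
    have h5 := hY h₀
    calc (s ^ J * y) ^ 2 = (s ^ 2) ^ J * y ^ 2 := by ring
      _ = (q : ℝ) ^ J * y ^ 2 := by rw [hs2]
      _ ≤ g := h5
  have h5 : g * y ≤ (4 * C * √m) * g := by
    calc g * y ≤ (C * √g * √m * (4 * s ^ J)) * y := mul_le_mul_of_nonneg_right h3 hy
      _ = (4 * C * √m * √g) * (s ^ J * y) := by ring
      _ ≤ (4 * C * √m * √g) * √g := mul_le_mul_of_nonneg_left h4
          (mul_nonneg (mul_nonneg (mul_nonneg (by norm_num) hC) (sqrt_nonneg m)) (sqrt_nonneg g))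
      _ = (4 * C * √m) * √g ^ 2 := by ring
      _ = (4 * C * √m) * g := by rw [hsg]
  rw [mul_comm g y] at h5
  exact le_of_mul_le_mul_right h5 hg0

end Pool.DynLehmer.GAL.H98
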