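import Pool.Agent.Lib.MP_2194ec_nt.GAL.H98.Lev
import Pool.Agent.Lib.MP_2194ec_nt.GAL.H98.Num

set_option autoImplicit false
set_option linter.unusedSectionVars false

/-!
# Row E: the end of the proof
-/

namespace Pool.DynLehmer.GAL.H98
open NumberField Filter Topology Pool.DynLehmer Pool.DynLehmer.GAL
open scoped Classical

section height

variable {N : Type} [Field N] [NumberField N]

theorem height_pt_self (x : N) : Height.logHeight (pt x x) = Height.logHeight ![x, 1] := by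
  refine le_antisymm ?_ ?_
  · have h := Height.logHeight_comp_le (![0, 0, 1] : Fin 3 → Fin 2) (![x, 1] : Fin 2 → N)
    have e : (![x, 1] : Fin 2 → N) ∘ (![0, 0, 1] : Fin 3 → Fin 2) = pt x x := by
      funext i
      fin_cases i <;> rfl
    rwa [e] at h
  · have h := Height.logHeight_comp_le (![0, 2] : Fin 2 → Fin 3) (pt x x)
    have e : pt x x ∘ (![0, 2] : Fin 2 → Fin 3) = (![x, 1] : Fin 2 → N) := by
      funext i
      fin_cases i <;> rfl
    rwa [e] at h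

theorem height_conj {K : Type} [Field K] [Algebra K N] (σ : N ≃ₐ[K] N) (x : N) :
    Height.logHeight ![σ x, 1] = Height.logHeight ![x, 1] := by
  have h := logHeight_ringEquiv (σ : N ≃+* N) (![x, 1] : Fin 2 → N)
  have e : (fun i => (σ : N ≃+* N) ((![x, 1] : Fin 2 → N) i)) = ![σ x, 1] := by
    funext i
    fin_cases i
    · rfl
    · exact map_one σ
  rwa [e] at h

end height

theorem PerPol.mono {K : Type} [Field K] {f : Polynomial K} {e e' : ℕ} (h : e ≤ e')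
    {G : Polynomial (Polynomial K)} (hG : PerPol f e G) : PerPol f e' G :=
  ⟨hG.irr, hG.degY.trans h, fun i => (hG.degX i).trans h, hG.posY, hG.posX, hG.per⟩

theorem gAct_pt {K : Type} [Field K] {f : Polynomial K} {F : Fin 3 → MvPolynomial (Fin 3) K}
    (hF : Ext f F) {N : Type} [Field N] [Algebra K N] (n : ℕ) (x y : N) :
    (gAct F N)^[n] (pt x y) = pt ((fm f N)^[n] x) ((fm f N)^[n] y) := by
  induction n with
  | zero => rfl
  | succ n ih => rw [Function.iterate_succ_apply', ih, hF, Function.iterate_succ_apply',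
      Function.iterate_succ_apply']

theorem fm_conj {K : Type} [Field K] (f : Polynomial K) {N : Type} [Field N] [Algebra K N]
    (σ : N ≃ₐ[K] N) (n : ℕ) (x : N) : (fm f N)^[n] (σ x) = σ ((fm f N)^[n] x) := by
  rw [← H78.fm_iter, ← H78.fm_iter]
  exact Polynomial.aeval_algHom_apply (σ : N →ₐ[K] N) x (itp f n)

/-- From the two bounds on `X` and `e` to a bound for `e`. -/
theorem e_le {η X D : ℝ} (h0 : 0 < η) (h4 : η ≤ 1 / 4) (hX : 1 ≤ X) (hD : 1 ≤ D) {e : ℕ}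
    (he : (e : ℝ) ≤ X ^ η) (h : X ^ (1 - η) ≤ D * (2 * e)) : (e : ℝ) ≤ (2 * D) ^ (2 * η) := by
  have hX0 : 0 < X := zero_lt_one.trans_le hX
  have h1 : X ^ (1 - η) ≤ (2 * D) * X ^ η := by
    calc X ^ (1 - η) ≤ D * (2 * e) := h
      _ = (2 * D) * e := by ring
      _ ≤ (2 * D) * X ^ η := mul_le_mul_of_nonneg_left he (by linarith)
  have h2 : X ^ (1 - 2 * η) ≤ 2 * D := by
    have h3 : X ^ (1 - 2 * η) * X ^ η = X ^ (1 - η) := by
      rw [← Real.rpow_add hX0]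
      congr 1
      ring
    rw [← h3] at h1
    exact le_of_mul_le_mul_right h1 (Real.rpow_pos_of_pos hX0 _)
  have h3 : X ^ (1 / 2 : ℝ) ≤ 2 * D :=
    (Real.rpow_le_rpow_of_exponent_le hX (by linarith)).trans h2
  calc (e : ℝ) ≤ X ^ η := he
    _ = (X ^ (1 / 2 : ℝ)) ^ (2 * η) := by
        rw [← Real.rpow_mul hX0.le]
        congr 1
        ring
    _ ≤ (2 * D) ^ (2 * η) := Real.rpow_le_rpow (Real.rpow_nonneg hX0.le _) h3 (by linarith)

/-- The bound for the number of elements at one level. -/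
theorem lev_num {η D : ℝ} (hD : 1 ≤ D) {n E : ℕ} (hη : η * (4 * ((n : ℝ) + 1)) ≤ 1)
    (hE : (E : ℝ) ≤ (2 * D) ^ (2 * η)) :
    (((2 * E : ℕ) : ℝ)) ^ (n + 1) ≤ 2 ^ (n + 2) * √D := by
  have h2D : 1 ≤ 2 * D := by linarith
  have h1 : (E : ℝ) ^ (n + 1) ≤ (2 * D) ^ (1 / 2 : ℝ) := by
    calc (E : ℝ) ^ (n + 1) ≤ ((2 * D) ^ (2 * η)) ^ (n + 1) :=
          pow_le_pow_left₀ (Nat.cast_nonneg E) hE _
      _ = (2 * D) ^ (2 * η * ((n + 1 : ℕ) : ℝ)) := by
          rw [← Real.rpow_natCast, ← Real.rpow_mul (by linarith)]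
      _ ≤ (2 * D) ^ (1 / 2 : ℝ) := by
          refine Real.rpow_le_rpow_of_exponent_le h2D ?_
          push_cast
          linarith
  have h2 : (2 * D) ^ (1 / 2 : ℝ) ≤ 2 * √D := by
    rw [← Real.sqrt_eq_rpow, Real.sqrt_mul (by norm_num)]
    refine mul_le_mul_of_nonneg_right ?_ (Real.sqrt_nonneg D)
    rw [Real.sqrt_le_left (by norm_num)]
    norm_num
  push_cast
  calc (2 * (E : ℝ)) ^ (n + 1) = 2 ^ (n + 1) * (E : ℝ) ^ (n + 1) := mul_pow _ _ _
    _ ≤ 2 ^ (n + 1) * (2 * √D) := mul_le_mul_of_nonneg_left (h1.trans h2) (by positivity)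
    _ = 2 ^ (n + 2) * √D := by ring

/-- Row E. -/
theorem e : EStatement := by
  intro hA hB hC hCh hDD hDf K _ _ p s v f hyp ε hε
  have hp2 : 2 ≤ p := hyp.prime.two_le
  have hq2 : 2 ≤ p ^ s := by
    calc 2 ≤ p := hp2
      _ = p ^ 1 := (pow_one p).symm
      _ ≤ p ^ s := Nat.pow_le_pow_right (by omega) hyp.pos
  obtain ⟨CB, nB, hB'⟩ := hB K (p ^ s) f hq2 hyp.monic hyp.deg hyp.ne
  obtain ⟨F, hF1, hF2, hF3, hF4, hF5⟩ := hC K p s v f hyp
  set η : ℝ := min (ε / 2) (1 / (4 * ((nB : ℝ) + 1))) with hη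
  have hn0 : (0 : ℝ) < 4 * ((nB : ℝ) + 1) := by positivity
  have hη0 : 0 < η := lt_min (by linarith) (by positivity)
  have hηε : 2 * η ≤ ε := by
    have := min_le_left (ε / 2) (1 / (4 * ((nB : ℝ) + 1)))
    linarith
  have hηn : η * (4 * ((nB : ℝ) + 1)) ≤ 1 := by
    have h1 := min_le_right (ε / 2) (1 / (4 * ((nB : ℝ) + 1)))
    rw [← hη, le_div_iff₀ hn0] at h1
    exact h1
  have hη4 : η ≤ 1 / 4 := by
    have h1 : (0 : ℝ) ≤ nB := Nat.cast_nonneg nB
    nlinarith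
  obtain ⟨c, hc, hA'⟩ := hA K p s (Fin 3) v (by simp) hyp.prime hyp.pos hyp.above F hF1 hF2 hF3
    hF4 η hη0 (by linarith)
  set C₄ : ℝ := CB * 2 ^ (nB + 2) with hC₄
  have hC₄0 : 0 ≤ C₄ := by positivity
  set A₀ : ℝ := (4 * C₄ + 1) ^ 4 with hA₀
  have hA₀1 : 1 ≤ A₀ := one_le_pow₀ (by linarith)
  have hA₀0 : 0 < A₀ := by linarith
  refine ⟨c / 2 * A₀ ^ (-η), by positivity, ?_⟩
  intro N _ _ _ _ a ha
  have hfd : FiniteDimensional K N := inferInstance
  -- the numbers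
  set g : ℝ := (Fintype.card (N ≃ₐ[K] N) : ℝ) with hg
  have hgN : (Module.finrank K N : ℝ) = g := by
    rw [hg, ← Nat.card_eq_fintype_card, IsGalois.card_aut_eq_finrank]
  have hg0 : 0 < g := by
    rw [hg]
    exact_mod_cast Fintype.card_pos
  set m : ℝ := (Module.finrank (IntermediateField.adjoin K {a}) N : ℝ) with hm
  have hmst : (Nat.card (st K a) : ℝ) = m := by rw [card_st]
  have hm1 : 1 ≤ m := by
    rw [← hmst]
    exact_mod_cast Nat.card_pos
  have hm0 : 0 < m := by linarith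
  set Y : ℝ := A₀ * m ^ 2 with hY
  have hY1 : 1 ≤ Y := one_le_mul_of_one_le_of_one_le hA₀1 (one_le_pow₀ hm1)
  -- the points
  have hpt0 : ∀ σ : N ≃ₐ[K] N, pt a (σ a) ≠ 0 := by
    intro σ h0
    have h1 : (1 : N) = 0 := congrFun h0 2
    exact one_ne_zero h1
  have hwand : ∀ σ : N ≃ₐ[K] N, ¬ ∃ m n : ℕ, m ≠ n ∧ ∃ c : N, c ≠ 0 ∧
      (gAct F N)^[n] (pt a (σ a)) = c • (gAct F N)^[m] (pt a (σ a)) := by
    rintro σ ⟨m, n, hmn, c, _, h⟩
    rw [gAct_pt hF5, gAct_pt hF5] at h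
    have h1 : (1 : N) = c * 1 := congrFun h 2
    have h2 : (fm f N)^[n] a = c * (fm f N)^[m] a := congrFun h 0
    rw [mul_one] at h1
    rw [← h1, one_mul] at h2
    exact hmn (ha n m h2).symm
  have hwA : ∀ n : ℕ, Wand f ((fm f N)^[n] a) := by
    intro n i j hij
    rw [← Function.iterate_add_apply, ← Function.iterate_add_apply] at hij
    have := ha _ _ hij
    omega
  have hwS : ∀ (σ : N ≃ₐ[K] N) (n : ℕ), Wand f ((fm f N)^[n] (σ a)) := by
    intro σ n i j hij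
    rw [← Function.iterate_add_apply, ← Function.iterate_add_apply, fm_conj, fm_conj] at hij
    have := ha _ _ (σ.injective hij)
    omega
  -- the canonical height
  obtain ⟨hf, hlim, _⟩ := hA' Y hY1 N (pt a ((1 : N ≃ₐ[K] N) a)) (hpt0 1) (hwand 1)
  have hlim' : Tendsto (fun n : ℕ => Height.logHeight ![(fm f N)^[n] a, 1] /
      (Module.finrank ℚ N : ℝ) / ((p ^ s : ℕ) : ℝ) ^ n) atTop (𝓝 hf) := by
    refine hlim.congr fun n => ?_
    rw [gAct_pt hF5]
    have : (fm f N)^[n] ((1 : N ≃ₐ[K] N) a) = (fm f N)^[n] a := rfl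
    rw [this, height_pt_self]
  refine ⟨hf, hlim', ?_⟩
  have hheight : ∀ (σ : N ≃ₐ[K] N) (h : ℝ), Tendsto (fun n : ℕ =>
      Height.logHeight ((gAct F N)^[n] (pt a (σ a))) /
      (Module.finrank ℚ N : ℝ) / ((p ^ s : ℕ) : ℝ) ^ n) atTop (𝓝 h) → h ≤ 2 * hf := by
    intro σ h hh
    refine le_of_tendsto_of_tendsto' hh (hlim'.const_mul 2) fun n => ?_
    rw [gAct_pt hF5]
    have h1 := hCh N ((fm f N)^[n] a) ((fm f N)^[n] (σ a))
    rw [fm_conj, height_conj] at h1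
    have h2 : (0 : ℝ) ≤ (Module.finrank ℚ N : ℝ) := Nat.cast_nonneg _
    have h3 : (0 : ℝ) ≤ ((p ^ s : ℕ) : ℝ) ^ n := by positivity
    rw [fm_conj, mul_div_assoc', mul_div_assoc']
    refine div_le_div_of_nonneg_right (div_le_div_of_nonneg_right ?_ h2) h3
    linarith
  -- one of the points satisfies the bound
  by_contra hlt
  push Not at hlt
  have hno : ∀ (σ : N ≃ₐ[K] N), ∃ (n e : ℕ) (X : ℝ), 1 ≤ X ∧ Y ≤ X ∧ (e : ℝ) ≤ X ^ η ∧
      ((p ^ s : ℕ) : ℝ) ^ n * X ^ (1 - η) ≤ idx (⊤ : Subgroup (N ≃ₐ[K] N)) (pt a (σ a)) ∧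
      X ^ (1 - η) ≤ idx (⊤ : Subgroup (N ≃ₐ[K] N)) ((gAct F N)^[n] (pt a (σ a))) ∧
      OnPer F ((gAct F N)^[n] (pt a (σ a))) e := by
    intro σ
    obtain ⟨h, hh, h1⟩ := hA' Y hY1 N (pt a (σ a)) (hpt0 σ) (hwand σ)
    rcases h1 with h1 | h1
    · exfalso
      have h2 := hheight σ h hh
      have hidx : (idx (⊤ : Subgroup (N ≃ₐ[K] N)) (pt a (σ a)) : ℝ) ≤ g := by
        have h4 := card_mul_idx (⊤ : Subgroup (N ≃ₐ[K] N)) (pt a (σ a))
        have h5 : (fin (⊤ : Subgroup (N ≃ₐ[K] N))).card = Fintype.card (N ≃ₐ[K] N) := by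
          rw [card_fin, Nat.card_congr (Subgroup.topEquiv (G := N ≃ₐ[K] N)).toEquiv,
            Nat.card_eq_fintype_card]
        rw [h5] at h4
        have h6 : idx (⊤ : Subgroup (N ≃ₐ[K] N)) (pt a (σ a)) ≤ Fintype.card (N ≃ₐ[K] N) := by
          rw [← h4]
          exact Nat.le_mul_of_pos_left _ (card_fin_pos _)
        rw [hg]
        exact_mod_cast h6
      have hYη : 0 < Y ^ (-η) := Real.rpow_pos_of_pos (by linarith) _
      have hhpos : 0 < h := by
        by_contra hneg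
        push Not at hneg
        have h4 : (idx (⊤ : Subgroup (N ≃ₐ[K] N)) (pt a (σ a)) : ℝ) * h ≤ 0 :=
          mul_nonpos_of_nonneg_of_nonpos (Nat.cast_nonneg _) hneg
        have h5 : 0 < c * Y ^ (-η) := mul_pos hc hYη
        linarith
      have h3 : c * Y ^ (-η) ≤ g * (2 * hf) := by
        calc c * Y ^ (-η) ≤ (idx (⊤ : Subgroup (N ≃ₐ[K] N)) (pt a (σ a)) : ℝ) * h := h1
          _ ≤ g * h := mul_le_mul_of_nonneg_right hidx hhpos.le
          _ ≤ g * (2 * hf) := mul_le_mul_of_nonneg_left h2 hg0.le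
      have h4 : A₀ ^ (-η) * m ^ (-ε) ≤ Y ^ (-η) := by
        rw [hY, Real.mul_rpow hA₀0.le (by positivity)]
        refine mul_le_mul_of_nonneg_left ?_ (Real.rpow_nonneg hA₀0.le _)
        rw [← Real.rpow_natCast m 2, ← Real.rpow_mul hm0.le]
        refine Real.rpow_le_rpow_of_exponent_le hm1 ?_
        push_cast
        linarith
      have h5 : c / 2 * A₀ ^ (-η) ≤ hf * (g * m ^ ε) := by
        have h6 : m ^ (-ε) * m ^ ε = 1 := by
          rw [← Real.rpow_add hm0, neg_add_cancel, Real.rpow_zero]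
        have hme : 0 < m ^ ε := Real.rpow_pos_of_pos hm0 _
        have h7 : c * (A₀ ^ (-η) * m ^ (-ε)) ≤ g * (2 * hf) :=
          (mul_le_mul_of_nonneg_left h4 hc.le).trans h3
        have h8 : c * (A₀ ^ (-η) * m ^ (-ε)) * m ^ ε ≤ g * (2 * hf) * m ^ ε :=
          mul_le_mul_of_nonneg_right h7 hme.le
        have h9 : c * (A₀ ^ (-η) * m ^ (-ε)) * m ^ ε = c * A₀ ^ (-η) := by
          calc c * (A₀ ^ (-η) * m ^ (-ε)) * m ^ ε = c * A₀ ^ (-η) * (m ^ (-ε) * m ^ ε) := by ring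
            _ = c * A₀ ^ (-η) := by rw [h6, mul_one]
        rw [h9] at h8
        linarith
      have h6 : c / 2 * A₀ ^ (-η) / (g * m ^ ε) ≤ hf := by
        rw [div_le_iff₀ (mul_pos hg0 (Real.rpow_pos_of_pos hm0 _))]
        exact h5
      rw [hgN] at hlt
      linarith
    · exact h1
  choose n e X hX1 hXY he hi1 hi2 hper using hno
  have hDj1 : ∀ j, (1 : ℝ) ≤ ((conj K ((fm f N)^[j] a)).card : ℝ) := by
    intro j
    exact_mod_cast card_conj_pos _
  have hidxg : ∀ σ : N ≃ₐ[K] N, (idx (⊤ : Subgroup (N ≃ₐ[K] N)) (pt a (σ a)) : ℝ) ≤ g := by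
    intro σ
    have h4 := card_mul_idx (⊤ : Subgroup (N ≃ₐ[K] N)) (pt a (σ a))
    have h5 : (fin (⊤ : Subgroup (N ≃ₐ[K] N))).card = Fintype.card (N ≃ₐ[K] N) := by
      rw [card_fin, Nat.card_congr (Subgroup.topEquiv (G := N ≃ₐ[K] N)).toEquiv,
        Nat.card_eq_fintype_card]
    rw [h5] at h4
    have h6 : idx (⊤ : Subgroup (N ≃ₐ[K] N)) (pt a (σ a)) ≤ Fintype.card (N ≃ₐ[K] N) := by
      rw [← h4]
      exact Nat.le_mul_of_pos_left _ (card_fin_pos _)
    rw [hg]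
    exact_mod_cast h6
  -- the periodic polynomials
  have hG : ∀ σ : N ≃ₐ[K] N, ∃ G, PerPol f (2 * e σ) G ∧
      ev2 ((fm f N)^[n σ] a) (σ ((fm f N)^[n σ] a)) G = 0 := by
    intro σ
    have h1 := hper σ
    rw [gAct_pt hF5] at h1
    obtain ⟨G, hG, hG'⟩ := hDD K f F hF5 N _ _ (e σ) (hwA (n σ)) (hwS σ (n σ)) h1
    rw [fm_conj] at hG'
    exact ⟨G, hG, hG'⟩
  have heD : ∀ σ : N ≃ₐ[K] N, (e σ : ℝ) ≤
      (2 * ((conj K ((fm f N)^[n σ] a)).card : ℝ)) ^ (2 * η) := by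
    intro σ
    obtain ⟨G, hG, hG'⟩ := hG σ
    refine e_le hη0 hη4 (hX1 σ) (hDj1 _) (he σ) ((hi2 σ).trans ?_)
    rw [gAct_pt hF5, fm_conj]
    have h1 := idx_pt_le ((fm f N)^[n σ] a) (σ ((fm f N)^[n σ] a)) G (2 * e σ) hG.degY
      (fun b => hDf K G hG.irr hG.posY N b) hG'
    exact_mod_cast h1
  have key := end_num n (p ^ s) hq2 (fun j => ((conj K ((fm f N)^[j] a)).card : ℝ)) hDj1 m hm1
    (by
      intro j
      have h1 := conj_le f (q := p ^ s) (by omega) hyp.deg a j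
      have h2 := card_conj_mul (K := K) a
      have h3 : g = ((conj K a).card : ℝ) * m := by
        rw [hg, ← h2, ← hmst]
        push_cast
        rfl
      have h4 : ((conj K a).card : ℝ) ≤
          ((p ^ s : ℕ) : ℝ) ^ j * ((conj K ((fm f N)^[j] a)).card : ℝ) := by exact_mod_cast h1
      rw [← hg, h3, mul_comm]
      exact mul_le_mul_of_nonneg_left h4 hm0.le)
    ((4 * C₄ + 1) * √m) (by positivity)
    (by
      intro σ
      have h1 : ((4 * C₄ + 1) * √m) ^ 2 ≤ X σ ^ (1 - η) := by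
        have h2 : ((4 * C₄ + 1) * √m) ^ 2 = Y ^ (1 / 2 : ℝ) := by
          rw [← Real.sqrt_eq_rpow, hY, hA₀, mul_pow, Real.sq_sqrt hm0.le]
          refine ((Real.sqrt_eq_iff_mul_self_eq (by positivity) (by positivity)).2 ?_).symm
          ring
        rw [h2]
        calc Y ^ (1 / 2 : ℝ) ≤ X σ ^ (1 / 2 : ℝ) :=
              Real.rpow_le_rpow (by linarith) (hXY σ) (by norm_num)
          _ ≤ X σ ^ (1 - η) := Real.rpow_le_rpow_of_exponent_le (hX1 σ) (by linarith)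
      calc ((p ^ s : ℕ) : ℝ) ^ n σ * ((4 * C₄ + 1) * √m) ^ 2
          ≤ ((p ^ s : ℕ) : ℝ) ^ n σ * X σ ^ (1 - η) :=
            mul_le_mul_of_nonneg_left h1 (by positivity)
        _ ≤ g := (hi1 σ).trans (hidxg σ))
    C₄ hC₄0
    (by
      intro j
      set D : ℝ := ((conj K ((fm f N)^[j] a)).card : ℝ) with hD
      have hD1 : 1 ≤ D := hDj1 j
      set E : ℕ := ⌊(2 * D) ^ (2 * η)⌋₊ with hE
      have hE1 : (E : ℝ) ≤ (2 * D) ^ (2 * η) :=
        Nat.floor_le (Real.rpow_nonneg (by linarith) _)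
      obtain ⟨S, hS, hS'⟩ := hB' (2 * E)
      have h1 := count_le hDf f (2 * E) (CB * (2 * E) ^ nB) S hS hS' ((fm f N)^[j] a)
      have h2 : (Finset.univ.filter fun σ => n σ = j).card ≤
          (Finset.univ.filter fun h : N ≃ₐ[K] N => ∃ G, PerPol f (2 * E) G ∧
            ev2 ((fm f N)^[j] a) (h ((fm f N)^[j] a)) G = 0).card := by
        refine Finset.card_le_card fun σ hσ => ?_
        have hσ' : n σ = j := (Finset.mem_filter.1 hσ).2
        refine Finset.mem_filter.2 ⟨Finset.mem_univ _, ?_⟩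
        obtain ⟨G, hG, hG'⟩ := hG σ
        have h3 := heD σ
        rw [hσ'] at hG' h3
        exact ⟨G, PerPol.mono (Nat.mul_le_mul_left 2 (Nat.le_floor h3)) hG, hG'⟩
      have h3 : ((Finset.univ.filter fun σ => n σ = j).card : ℝ) * D ≤
          ((CB * (2 * E) ^ nB * (2 * E) * Fintype.card (N ≃ₐ[K] N) : ℕ) : ℝ) := by
        have h4 := (Nat.mul_le_mul_right (conj K ((fm f N)^[j] a)).card h2).trans h1
        rw [hD]
        exact_mod_cast h4
      have h5 := lev_num hD1 hηn hE1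
      have h6 : ((CB * (2 * E) ^ nB * (2 * E) * Fintype.card (N ≃ₐ[K] N) : ℕ) : ℝ) =
          CB * g * (((2 * E : ℕ) : ℝ)) ^ (nB + 1) := by
        rw [hg]
        push_cast
        ring
      rw [h6] at h3
      refine h3.trans ?_
      calc CB * g * (((2 * E : ℕ) : ℝ)) ^ (nB + 1) ≤ CB * g * (2 ^ (nB + 2) * √D) :=
            mul_le_mul_of_nonneg_left h5 (by positivity)
        _ = C₄ * g * √D := by
            rw [hC₄]
            ring)
  have hsm : 0 < √m := Real.sqrt_pos.2 hm0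
  nlinarith

end Pool.DynLehmer.GAL.H98
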