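import Pool.Agent.Lib.MP_2194ec_nt.GAL.H98.Cnt
import Pool.Agent.Lib.MP_2194ec_nt.GAL.H78.Dp
import Pool.Agent.Lib.MP_2194ec_nt.GAL.H75.Pow

set_option autoImplicit false
set_option linter.unusedSectionVars false

/-!
# Counting at one level
-/

namespace Pool.DynLehmer.GAL.H98
open NumberField Pool.DynLehmer Pool.DynLehmer.GAL
open scoped Classical

variable {K N : Type} [Field K] [Field N] [Algebra K N] [FiniteDimensional K N]

theorem natDegree_itp (f : Polynomial K) (j : ℕ) : (itp f j).natDegree = f.natDegree ^ j := by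
  induction j with
  | zero => rw [H75.itp_zero, Polynomial.natDegree_X, pow_zero]
  | succ j ih => rw [H75.itp_succ, Polynomial.natDegree_comp, ih, pow_succ']

/-- The degrees along the orbit. -/
theorem conj_le (f : Polynomial K) {q : ℕ} (hq : 0 < q) (hf : f.natDegree = q) (a : N) (j : ℕ) :
    (conj K a).card ≤ q ^ j * (conj K ((fm f N)^[j] a)).card := by
  have hcomm : ∀ σ : N ≃ₐ[K] N, ∀ x, σ ((fm f N)^[j] x) = (fm f N)^[j] (σ x) := by
    intro σ x
    rw [← H78.fm_iter, ← H78.fm_iter]
    exact (Polynomial.aeval_algHom_apply (σ : N →ₐ[K] N) x (itp f j)).symm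
  refine Finset.card_le_mul_card_image_of_maps_to (f := (fm f N)^[j]) ?_ _ ?_
  · intro x hx
    obtain ⟨σ, _, rfl⟩ := Finset.mem_image.1 hx
    exact Finset.mem_image.2 ⟨σ, Finset.mem_univ _, hcomm σ a⟩
  · intro y _
    let P : Polynomial N := (itp f j).map (algebraMap K N) - Polynomial.C y
    have hP : P.natDegree = q ^ j := by
      rw [Polynomial.natDegree_sub_C, Polynomial.natDegree_map, natDegree_itp, hf]
    have hP0 : P ≠ 0 := by
      intro h0
      rw [h0, Polynomial.natDegree_zero] at hP
      exact (pow_pos hq j).ne hP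
    have h5 : ((conj K a).filter fun x => (fm f N)^[j] x = y).card ≤ P.roots.toFinset.card := by
      refine Finset.card_le_card fun x hx => ?_
      have hx' := (Finset.mem_filter.1 hx).2
      rw [Multiset.mem_toFinset, Polynomial.mem_roots hP0]
      show Polynomial.eval x ((itp f j).map (algebraMap K N) - Polynomial.C y) = 0
      rw [Polynomial.eval_sub, Polynomial.eval_C, Polynomial.eval_map_algebraMap,
        H78.fm_iter, hx', sub_self]
    exact h5.trans ((Multiset.toFinset_card_le _).trans ((Polynomial.card_roots' P).trans hP.le))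

/-- The number of `h` with `{b, h b}` on a periodic curve of small degree. -/
theorem count_le (hDf : DfStatement) (f : Polynomial K) (e M : ℕ)
    (S : Finset (Polynomial (Polynomial K))) (hM : S.card ≤ M)
    (hS : ∀ G, PerPol f e G → ∃ G' ∈ S, Associated G G') (b : N) :
    (Finset.univ.filter fun h : N ≃ₐ[K] N => ∃ G, PerPol f e G ∧ ev2 b (h b) G = 0).card *
      (conj K b).card ≤ M * e * Fintype.card (N ≃ₐ[K] N) := by
  let S' := S.filter fun G' => ∃ G, PerPol f e G ∧ Associated G G'
  let rt : Polynomial (Polynomial K) → Finset N := fun G' =>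
    (G'.map (Polynomial.aeval b : Polynomial K →ₐ[K] N).toRingHom).roots.toFinset
  let V : Finset N := S'.biUnion rt
  have hV : V.card ≤ M * e := by
    refine Finset.card_biUnion_le.trans ?_
    refine (Finset.sum_le_card_nsmul S' _ e ?_).trans ?_
    · intro G' hG'
      obtain ⟨G, hG, hGG'⟩ := (Finset.mem_filter.1 hG').2
      refine (Multiset.toFinset_card_le _).trans ((Polynomial.card_roots' _).trans ?_)
      refine Polynomial.natDegree_map_le.trans ?_
      rw [← Polynomial.natDegree_eq_of_degree_eq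
        (Polynomial.degree_eq_degree_of_associated hGG')]
      exact hG.degY
    · rw [smul_eq_mul]
      exact Nat.mul_le_mul_right e ((Finset.card_filter_le _ _).trans hM)
  have hsub : (Finset.univ.filter fun h : N ≃ₐ[K] N => ∃ G, PerPol f e G ∧ ev2 b (h b) G = 0) ⊆
      V.biUnion fun y => Finset.univ.filter fun h : N ≃ₐ[K] N => h b = y := by
    intro h hh
    obtain ⟨G, hG, h0⟩ := (Finset.mem_filter.1 hh).2
    obtain ⟨G', hG', hGG'⟩ := hS G hG
    refine Finset.mem_biUnion.2 ⟨h b, Finset.mem_biUnion.2 ⟨G', Finset.mem_filter.2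
      ⟨hG', G, hG, hGG'⟩, ?_⟩, Finset.mem_filter.2 ⟨Finset.mem_univ _, rfl⟩⟩
    have hne : G'.map (Polynomial.aeval b : Polynomial K →ₐ[K] N).toRingHom ≠ 0 := by
      refine hDf K G' (hGG'.irreducible hG.irr) ?_ N b
      rw [← Polynomial.natDegree_eq_of_degree_eq
        (Polynomial.degree_eq_degree_of_associated hGG')]
      exact hG.posY
    rw [Multiset.mem_toFinset, Polynomial.mem_roots hne]
    show Polynomial.eval (h b) (G'.map _) = 0
    rw [Polynomial.eval_map]
    obtain ⟨u, rfl⟩ := hGG'
    rw [Polynomial.eval₂_mul]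
    have h1 : G.eval₂ (Polynomial.aeval b : Polynomial K →ₐ[K] N).toRingHom (h b) = 0 := h0
    rw [h1, zero_mul]
  calc _ ≤ (V.biUnion fun y => Finset.univ.filter fun h : N ≃ₐ[K] N => h b = y).card *
        (conj K b).card := Nat.mul_le_mul_right _ (Finset.card_le_card hsub)
    _ ≤ (∑ y ∈ V, (Finset.univ.filter fun h : N ≃ₐ[K] N => h b = y).card) *
        (conj K b).card := Nat.mul_le_mul_right _ Finset.card_biUnion_le
    _ = ∑ y ∈ V, (Finset.univ.filter fun h : N ≃ₐ[K] N => h b = y).card *
        (conj K b).card := Finset.sum_mul _ _ _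
    _ ≤ V.card • Fintype.card (N ≃ₐ[K] N) :=
        Finset.sum_le_card_nsmul V _ _ fun y _ => card_fibre b y
    _ ≤ M * e * Fintype.card (N ≃ₐ[K] N) := by
        rw [smul_eq_mul]
        exact Nat.mul_le_mul_right _ hV

end Pool.DynLehmer.GAL.H98
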